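import Pool.Agent.AESKEL.Skel
import Pool.Agent.AEJ.Closure

/-!
# The tree side of the full induction
-/

set_option autoImplicit false

namespace AESKEL

open Finset AE15 AED AELT AESK AEK AEJ
open scoped Classical

theorem ptT_split {k : ℕ} {p q : Bool × Fd} {m : ℕ} (h : PtT k p q m) : ∀ a ≤ m, ∃ u, PtT k p u a ∧ PtT k u q (m - a) := by
  induction h with
  | refl =>
    intro a ha
    obtain rfl : a = 0 := by omega
    exact ⟨p, PtT.refl, PtT.refl⟩
  | step q r m h1 h2 h3 ih =>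
    intro a ha
    by_cases hm : a ≤ m
    · obtain ⟨u, h4, h5⟩ := ih a hm
      refine ⟨u, h4, ?_⟩
      have h6 := PtT.step q r (m - a) h5 h2 h3
      have h7 : m + (if r.1 = q.1 then 0 else 1) - a = m - a + if r.1 = q.1 then 0 else 1 := by omega
      rw [h7]
      exact h6
    · have h7 : a = m + if r.1 = q.1 then 0 else 1 := by
        split_ifs at ha ⊢ <;> omega
      refine ⟨r, ?_, ?_⟩
      · rw [h7]
        exact PtT.step q r m h1 h2 h3
      · rw [← h7, Nat.sub_self]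
        exact PtT.refl

theorem ptT_scale {k K : ℕ} {p q : Bool × Fd} {m : ℕ} (h : PtT k p q m) (hK : K ≤ sz q) : PtT K p q m := by
  induction h with
  | refl => exact PtT.refl
  | step q r m _ h2 _ ih => exact PtT.step q r m (ih (hK.trans (sz_lt_of_mem h2).le)) h2 hK

theorem ptT_head {k : ℕ} {p q : Bool × Fd} {m : ℕ} (h : PtT k p q m) :
    m = 0 ∨ ∃ x ∈ p.2.trees, ∃ m', PtT k x q m' ∧ m ≤ m' + 1 := by
  induction h with
  | refl => exact Or.inl rfl
  | step q r m h1 h2 h3 ih =>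
    right
    have key : ∀ {q : Bool × Fd} {m : ℕ}, PtT k p q m → (q = p ∧ m = 0) ∨ ∃ x ∈ p.2.trees, ∃ m', PtT k x q m' ∧ m ≤ m' + 1 := by
      intro q m h
      induction h with
      | refl => exact Or.inl ⟨rfl, rfl⟩
      | step q r m h1 h2 h3 ih =>
        right
        rcases ih with ⟨rfl, rfl⟩ | ⟨x, hx, m', h4, h5⟩
        · exact ⟨r, h2, 0, PtT.refl, by split_ifs <;> omega⟩
        · exact ⟨x, hx, _, PtT.step q r m' h4 h2 h3, by split_ifs <;> omega⟩
    rcases key h1 with ⟨rfl, rfl⟩ | ⟨x, hx, m', h4, h5⟩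
    · exact ⟨r, h2, 0, PtT.refl, by split_ifs <;> omega⟩
    · exact ⟨x, hx, _, PtT.step q r m' h4 h2 h3, by split_ifs <;> omega⟩

theorem ptT_ksz {k : ℕ} {p q : Bool × Fd} {m : ℕ} (h : PtT k p q m) (hm : m ≠ 0) : k ≤ sz q := by
  cases h with
  | refl => exact absurd rfl hm
  | step q r m _ _ h3 => exact h3

theorem turnIn_of_two {k K : ℕ} {v w : Bool × Fd} {m : ℕ} (h : PtT k v w m) (hm : 2 ≤ m) (hK : K ≤ sz w) : TurnIn K v := by
  rcases ptT_head h with h1 | ⟨x, hx, m', h2, h3⟩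
  · omega
  · exact ⟨x, hx, hK.trans h2.sz_le, w, m', ptT_scale h2 hK, by omega⟩

theorem turnGE_of_in {k : ℕ} {p : Bool × Fd} (h : TurnIn k p) : TurnGE k 1 p := by
  obtain ⟨q, h1, h2, w, m, h3, h4⟩ := h
  exact ⟨w, _, (PtT.step p q 0 PtT.refl h1 h2).trans h3, by omega⟩

/-- the last branch of a path with two turns is disjoint from the ancestors and the descendants of the root -/
theorem window2 {c : Fd} {d0 : Bool} {q : Bool × Fd} {m : ℕ} (h : PtT 0 (d0, c) q m) (hm : 2 ≤ m) :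
    dcl c + AEB.blk c + (q.2.size + 1) ≤ c.size := by
  obtain ⟨l, h1, h2⟩ := h.spine
  have h3 := (spine_window h1).2.2
  cases h1 with
  | nil => simp [AESK.wd, AESK.tn] at h2; omega
  | cons d c s p q l hperm h =>
    have e6 : AESK.wd l q.1 = p.1 :: (AESK.wd l q.1).tail := by
      cases h with
      | nil p => rfl
      | cons d' c' s' p' q l' _ _ => rfl
    have e5 : (AESK.wd ((d0, s) :: l) q.1) = d0 :: AESK.wd l q.1 := rfl
    rw [e5] at h2 h3
    simp only [List.tail_cons] at h3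
    rw [e6] at h2 h3
    have h4 := tn_cons_le d0 p.1 (AESK.wd l q.1).tail
    have h5 : (!p.1) ∈ (AESK.wd l q.1).tail := by
      by_contra hc
      have := tn_const _ _ hc
      omega
    apply h3
    · rw [List.mem_cons]
      cases hp : p.1
      · exact Or.inl rfl
      · rw [hp] at h5
        exact Or.inr h5
    · rw [List.mem_cons]
      cases hp : p.1
      · rw [hp] at h5
        exact Or.inr h5
      · exact Or.inl rfl

/-- pigeonhole for the sizes on a path with many turns -/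
theorem chunk {θ : ℝ} (hθ : 0 < θ) {k : ℕ} (L : ℕ) : ∀ (v q : Bool × Fd), PtT k v q (2 * (L + 1)) →
    θ ^ (4 * (L + 1)) * sz v ≤ sz q → ∃ u w a, PtT k v u a ∧ PtT k u w 2 ∧ θ ^ 4 * (sz u : ℝ) ≤ sz w ∧ sz q ≤ sz w := by
  induction L with
  | zero =>
    intro v q h h1
    exact ⟨v, q, 0, PtT.refl, h, by simpa using h1, le_rfl⟩
  | succ L ih =>
    intro v q h h1
    obtain ⟨v1, h2, h3⟩ := ptT_split h 2 (by omega)
    by_cases h4 : θ ^ 4 * (sz v : ℝ) ≤ sz v1
    · exact ⟨v, v1, 0, PtT.refl, h2, h4, h3.sz_le⟩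
    · push Not at h4
      have h5 : 2 * (L + 1 + 1) - 2 = 2 * (L + 1) := by omega
      rw [h5] at h3
      have h6 : θ ^ (4 * (L + 1)) * (sz v1 : ℝ) ≤ sz q := by
        have h7 : θ ^ (4 * (L + 1)) * (sz v1 : ℝ) ≤ θ ^ (4 * (L + 1)) * (θ ^ 4 * (sz v : ℝ)) :=
          mul_le_mul_of_nonneg_left h4.le (by positivity)
        have h8 : θ ^ (4 * (L + 1)) * (θ ^ 4 * (sz v : ℝ)) = θ ^ (4 * (L + 1 + 1)) * sz v := by ring
        linarith
      obtain ⟨u, w, a, h7, h8, h9, h10⟩ := ih v1 q h3 h6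
      exact ⟨u, w, 2 + a, h2.trans h7, h8, h9, h10⟩

theorem sc_anti {θ : ℝ} (hθ : 0 < θ) (hθ1 : θ ≤ 1) {i j : ℕ} (h : i ≤ j) (n : ℕ) : sc θ j n ≤ sc θ i n := by
  unfold sc
  apply Nat.ceil_mono
  exact mul_le_mul_of_nonneg_right (pow_le_pow_of_le_one hθ.le hθ1 h) (Nat.cast_nonneg _)

/-- **The tree side** -/
theorem treeSide (b : ℕ) {θ : ℝ} (hθ : 0 < θ) (hθ1 : θ ≤ 1) : TreeSide b θ 15 := by
  intro c _ hTr
  obtain ⟨n, hn⟩ : ∃ n, n = c.size + 1 := ⟨_, rfl⟩
  have hin : TurnIn (sc θ 4 n) (true, c) := by rw [hn]; exact hTr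
  rcases ladder (fun j => sc θ j n) (a := 4) (τ := 1) (turnGE_of_in hin) 11 with h | ⟨j, τ, h1, h2, h3, h4, h5⟩
  · -- many turns
    obtain ⟨q, m, h1, h2⟩ := h
    obtain ⟨u0, h3, -⟩ := ptT_split h1 12 (by omega)
    have h4 := ptT_ksz h3 (by omega)
    obtain ⟨v0, h5, h6⟩ := ptT_split h3 4 (by omega)
    have h7 : θ ^ 15 * (n : ℝ) ≤ sz u0 := (Nat.le_ceil _).trans (by exact_mod_cast h4)
    have h8 : (sz v0 : ℝ) ≤ n := by
      have := h5.sz_le
      unfold sz at this ⊢
      simp only at this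
      rw [hn]
      exact_mod_cast this
    obtain ⟨u, w, a, g1, g2, g3, g4⟩ := chunk hθ 3 v0 u0 h6 (by
      have h9 : θ ^ (4 * (3 + 1)) * (sz v0 : ℝ) ≤ θ ^ 15 * n := by
        have h10 : θ ^ (4 * (3 + 1)) ≤ θ ^ 15 := pow_le_pow_of_le_one hθ.le hθ1 (by omega)
        exact mul_le_mul h10 h8 (Nat.cast_nonneg _) (by positivity)
      linarith)
    left
    refine ⟨u, true, 4 + a, (h5.trans g1).mono (Nat.zero_le _), by omega, ?_, ?_, ?_⟩
    · have h9 : (sz u0 : ℝ) ≤ sz u := by exact_mod_cast g4.trans g2.sz_le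
      have h10 : (sz u : ℝ) = u.2.size + 1 := by unfold sz; push_cast; ring
      rw [← h10]
      have h11 : ((c.size : ℝ) + 1) = n := by rw [hn]; push_cast; ring
      rw [h11]
      linarith
    · have h9 := window2 (c := u.2) (d0 := u.1) (g2.mono (Nat.zero_le _)) le_rfl
      have h10 : (sz u : ℝ) = u.2.size + 1 := by unfold sz; push_cast; ring
      have h11 : (sz w : ℝ) = w.2.size + 1 := by unfold sz; push_cast; ring
      have h12 : ((dcl u.2 : ℝ) + AEB.blk u.2 + (w.2.size + 1)) ≤ u.2.size := by exact_mod_cast h9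
      rw [h10, h11] at g3
      linarith
    · have h9 : sc θ 4 (u.2.size + 1) ≤ sz w := by
        unfold sc
        apply Nat.ceil_le.2
        unfold sz at g3
        exact g3
      exact turnIn_flag (turnIn_of_two (v := (u.1, u.2)) g2 le_rfl h9)
  · -- the stable case
    right
    have hin' : TurnIn (sc θ j n) (true, c) := hin.mono (sc_anti hθ hθ1 h1 n)
    obtain ⟨σ, s, z, g1, g2, g3, g4, g5, g6, g7⟩ := stable (sc_anti hθ hθ1 (Nat.le_succ j) n) h3 h4 h5 hin'
    cases σ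
    · right
      refine ⟨mrP s, mrP z, false, j, τ, h1, by omega, h3, ?_, ?_, ?_, mem_mrr g4, ?_, ?_, ?_⟩
      · rw [mrr_size, ← hn]
        exact ptT_mr g1
      · rw [sz_mrP, mrr_size]
        exact g2
      · show (!s.1) = false
        rw [g3]
        rfl
      · show (!z.1) = true
        rw [g5]
        rfl
      · rw [sz_mrP, mrr_size, ← hn]
        exact g6
      · rw [mrr_size, ← hn]
        refine allB_mr (σ := false) ?_ g7
        intro x hx
        refine ⟨?_, fine_mr (σ := false) hx.2⟩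
        show (mrr x).size ≤ (mrr z.2).size
        rw [mrr_size, mrr_size]
        exact hx.1
    · left
      refine ⟨s, z, true, j, τ, h1, by omega, h3, ?_, ?_, g3, g4, g5, ?_, ?_⟩
      · rw [← hn]; exact g1
      · exact g2
      · rw [← hn]; exact g6
      · rw [← hn]; exact g7

theorem fine_mono {σ : Bool} {k k' : ℕ} (h : k ≤ k') {c : Fd} (hc : Fine σ k c) : Fine σ k' c := by
  induction c with
  | nil => trivial
  | node d c s ihc ihs =>
    obtain ⟨h1, h2⟩ := hc
    refine ⟨?_, ihs h2⟩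
    by_cases hd : d = σ
    · rw [if_pos hd] at h1 ⊢
      exact ihc h1
    · rw [if_neg hd] at h1 ⊢
      omega

theorem fine_mem {σ : Bool} {k : ℕ} {c : Fd} (h : Fine σ k c) : ∀ q ∈ c.trees, q.1 = σ → Fine σ k q.2 := by
  induction c with
  | nil => intro q hq; simp [Fd.trees] at hq
  | node d c s _ ihs =>
    obtain ⟨h1, h2⟩ := h
    intro q hq hqσ
    rw [Fd.trees, List.mem_cons] at hq
    rcases hq with rfl | hq
    · simp only at hqσ
      rw [if_pos hqσ] at h1
      exact h1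
    · exact ihs h2 q hq hqσ

theorem allB_mem {σ : Bool} {P : Fd → Prop} {c : Fd} (h : AllB σ P c) : ∀ q ∈ c.trees, q.1 = σ → P q.2 := by
  induction c with
  | nil => intro q hq; simp [Fd.trees] at hq
  | node d c s _ ihs =>
    obtain ⟨h1, h2⟩ := h
    intro q hq hqσ
    rw [Fd.trees, List.mem_cons] at hq
    rcases hq with rfl | hq
    · simp only at hqσ
      rw [if_pos hqσ] at h1
      exact h1
    · exact ihs h2 q hq hqσ

/-- the final branch of a start is fine at its own scale -/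
theorem fineSide {b : ℕ} {θ : ℝ} {J : ℕ} (hθ : 0 < θ) (c : Fd) (s z : Bool × Fd) (_ : Tr b c) (h : StartD θ J c s z) :
    OFine (sc θ 1 (z.2.size + 1)) z.2 := by
  obtain ⟨d, j, τ, h1, h2, h3, h4, h5, h6, h7, h8, h9, h10⟩ := h
  have h11 := (allB_mem h10 z h7 h8).2
  have h12 : sc θ (j + 1) (c.size + 1) ≤ sc θ 1 (z.2.size + 1) := by
    unfold sc at h9 ⊢
    apply Nat.ceil_mono
    have h13 := Nat.ceil_le.1 h9
    unfold sz at h13
    have h14 : θ ^ (j + 1) * ((c.size + 1 : ℕ) : ℝ) = θ * (θ ^ j * ((c.size + 1 : ℕ) : ℝ)) := by ring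
    rw [h14, pow_one]
    exact mul_le_mul_of_nonneg_left h13 hθ.le
  exact fine_mem (fine_mono h12 h11)

/-- without turns the tree is fine -/
theorem rootSide (b : ℕ) {θ : ℝ} (hθ : 0 < θ) (hθ1 : θ ≤ 1) : RootSide b θ := by
  intro c _ hn q hq hqt
  apply fine_of_run
  intro d r hr w hw hwt
  by_contra hc
  push Not at hc
  apply hn
  have h1 : sc θ 4 (c.size + 1) ≤ sz w := (sc_anti hθ hθ1 (by omega) _).trans hc
  -- the run from `q`
  have hr' : r = (d, q.2) ∨ Run true q r := by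
    clear hw hc hwt
    induction hr with
    | refl => exact Or.inl rfl
    | step q' r' _ h2 h3 ih =>
      right
      rcases ih with ih | ih
      · subst ih
        exact Run.step _ _ Run.refl h2 h3
      · exact Run.step _ _ ih h2 h3
  obtain ⟨r₂, hr₂, hw₂⟩ : ∃ r₂, Run true q r₂ ∧ w ∈ r₂.2.trees := by
    rcases hr' with rfl | h
    · exact ⟨q, Run.refl, hw⟩
    · exact ⟨r, h, hw⟩
  have h2 : sc θ 4 (c.size + 1) ≤ sz r₂ := h1.trans (sz_lt_of_mem hw₂).le
  obtain ⟨h3, h4⟩ := hr₂.ptT hqt h2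
  have h5 := PtT.step r₂ w 0 h3 hw₂ h1
  have h6 : ¬ w.1 = r₂.1 := by
    rw [h4]
    exact hwt
  rw [if_neg h6] at h5
  exact ⟨q, hq, h2.trans h3.sz_le, w, 1, h5, le_rfl⟩

end AESKEL
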