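import Pool.Agent.AESK.Turns
import Pool.Agent.AEK.Thin
import Pool.Agent.AEX.Final33
import Pool.Agent.AEJ.Defs

/-!
# The skeleton of the full induction

`AEJ.Coarse κ ε β C c`: every coarse state of the tree with children forest `c` can be embedded. `NoS c`: every state of
the phase with an exact host of the parent can be embedded (a parameter). The arrows (jump, start, phase, root) are
hypotheses.
-/

set_option autoImplicit false

namespace AESKEL

open Finset AE15 AED AELT AESK AEK AEJ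
open scoped Classical

/-- bounded degree -/
def Tr (b : ℕ) (c : Fd) : Prop := c.len ≤ b ∧ c.Deg b

/-- the scale `θ ^ j * n` -/
noncomputable def sc (θ : ℝ) (j n : ℕ) : ℕ := ⌈θ ^ j * n⌉₊

/-- there is a path of branches of the scale 4 with a turn at a vertex which is not the root -/
def Trn (θ : ℝ) (c : Fd) : Prop := TurnIn (sc θ 4 (c.size + 1)) (true, c)

/-- in-branches at the proper descendants of the root are small -/
def OFine (k : ℕ) (c : Fd) : Prop := ∀ q ∈ c.trees, q.1 = true → Fine true k q.2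

/-- the root statement -/
def RootS (C : ℕ) (c : Fd) : Prop := ∀ {V : Type} {R : V → V → Prop}, AE32.Tour R → ∀ X : Finset V,
  c.size + 1 + C ≤ X.card → In R c (fun _ => True) X

/-- the data of a jump: the branch `q` is behind at least four turns, it is large, its window is long, and it has again a
path with a turn -/
def JumpD (θ : ℝ) (J : ℕ) (c : Fd) (q : Bool × Fd) : Prop := ∃ (d : Bool) (m : ℕ), PtT 0 (d, c) q m ∧ 4 ≤ m ∧
  θ ^ J * (c.size + 1) ≤ q.2.size + 1 ∧ θ ^ 4 * (q.2.size + 1) + dcl q.2 + AEB.blk q.2 ≤ q.2.size + 1 ∧ Trn θ q.2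

/-- the data of a start: `s` is an in-branch (not the whole tree), `z` is an out-branch at its root of at least the scale
`j`; every out-branch at an ancestor of the root of `s` in `s` is not larger than `z` and fine of scale `j + 1` -/
def StartD (θ : ℝ) (J : ℕ) (c : Fd) (s z : Bool × Fd) : Prop := ∃ (d : Bool) (j τ : ℕ), 4 ≤ j ∧ j < J ∧ 1 ≤ τ ∧
  PtT (sc θ j (c.size + 1)) (d, c) s (τ - 1) ∧ sz s < c.size + 1 ∧ s.1 = false ∧ z ∈ s.2.trees ∧ z.1 = true ∧
  sc θ j (c.size + 1) ≤ sz z ∧ AllB true (fun x => x.size ≤ z.2.size ∧ Fine true (sc θ (j + 1) (c.size + 1)) x) s.2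

/-! ### Mirror images -/

/-- mirror image of a branch -/
def mrP (p : Bool × Fd) : Bool × Fd := (!p.1, mrr p.2)

theorem mrP_mrP (p : Bool × Fd) : mrP (mrP p) = p := by
  unfold mrP
  rw [mrr_mrr, Bool.not_not]

theorem mrr_trees (c : Fd) : (mrr c).trees = c.trees.map mrP := by
  induction c with
  | nil => rfl
  | node d c s _ ihs => simp [mrr, Fd.trees, ihs, mrP]

theorem sz_mrP (p : Bool × Fd) : sz (mrP p) = sz p := by
  unfold sz mrP
  rw [mrr_size]

theorem mem_mrr {q : Bool × Fd} {c : Fd} (h : q ∈ c.trees) : mrP q ∈ (mrr c).trees := by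
  rw [mrr_trees]
  exact List.mem_map_of_mem h

theorem ptT_mr {k : ℕ} {p q : Bool × Fd} {m : ℕ} (h : PtT k p q m) : PtT k (mrP p) (mrP q) m := by
  induction h with
  | refl => exact PtT.refl
  | step q r m _ h2 h3 ih =>
    have h4 := PtT.step (mrP q) (mrP r) m ih (mem_mrr h2) (by rw [sz_mrP]; exact h3)
    have h5 : ((mrP r).1 = (mrP q).1) ↔ (r.1 = q.1) := by
      unfold mrP
      cases r.1 <;> cases q.1 <;> simp
    simp only [h5] at h4
    exact h4

theorem turnGE_mr {k τ : ℕ} {p : Bool × Fd} (h : TurnGE k τ p) : TurnGE k τ (mrP p) := by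
  obtain ⟨q, m, h1, h2⟩ := h
  exact ⟨mrP q, m, ptT_mr h1, h2⟩

theorem turnIn_mr {k : ℕ} {d d' : Bool} {c : Fd} (h : TurnIn k (d, c)) : TurnIn k (d', mrr c) := by
  obtain ⟨q, h1, h2, h3⟩ := h
  exact ⟨mrP q, mem_mrr h1, by rw [sz_mrP]; exact h2, turnGE_mr h3⟩

theorem turnIn_flag {k : ℕ} {d d' : Bool} {c : Fd} (h : TurnIn k (d, c)) : TurnIn k (d', c) := h

theorem trn_mr {θ : ℝ} {c : Fd} (h : Trn θ c) : Trn θ (mrr c) := by
  unfold Trn at h ⊢
  rw [mrr_size]
  exact turnIn_mr h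

theorem fine_mr {σ : Bool} {k : ℕ} {c : Fd} (h : Fine σ k c) : Fine (!σ) k (mrr c) := by
  induction c with
  | nil => trivial
  | node d c s ihc ihs =>
    obtain ⟨h1, h2⟩ := h
    refine ⟨?_, ihs h2⟩
    by_cases hd : d = σ
    · rw [if_pos hd] at h1
      rw [if_pos (by rw [hd])]
      exact ihc h1
    · rw [if_neg hd] at h1
      rw [if_neg (by intro h; exact hd (Bool.not_inj h)), mrr_size]
      exact h1

theorem allB_mr {σ : Bool} {P Q : Fd → Prop} (hPQ : ∀ x, P x → Q (mrr x)) {c : Fd} (h : AllB σ P c) :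
    AllB (!σ) Q (mrr c) := by
  induction c with
  | nil => trivial
  | node d c s ihc ihs =>
    obtain ⟨h1, h2⟩ := h
    refine ⟨?_, ihs h2⟩
    by_cases hd : d = σ
    · rw [if_pos hd] at h1
      rw [if_pos (by rw [hd])]
      exact hPQ c h1
    · rw [if_neg hd] at h1
      rw [if_neg (by intro h; exact hd (Bool.not_inj h))]
      exact ihc h1

theorem tr_mrr {b : ℕ} {c : Fd} (h : Tr b c) : Tr b (mrr c) := ⟨by rw [mrr_len]; exact h.1, mrr_deg h.2⟩

theorem tr_mem {b : ℕ} {c : Fd} (h : Tr b c) {q : Bool × Fd} (hq : q ∈ c.trees) : Tr b q.2 :=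
  (Fd.deg_iff b c).1 h.2 q hq

theorem tr_ptT {b k : ℕ} {p q : Bool × Fd} {m : ℕ} (hT : Tr b p.2) (h : PtT k p q m) : Tr b q.2 := by
  induction h with
  | refl => exact hT
  | step q r m _ h2 _ ih => exact tr_mem ih h2

theorem tr_sz {p q : Bool × Fd} (h : q ∈ p.2.trees) : q.2.size < p.2.size := by
  have := sz_lt_of_mem h
  unfold sz at this
  omega

theorem dcl_mrr (c : Fd) : dcl (mrr c) = AEB.blk c := by
  induction c with
  | nil => rfl
  | node d c s ihc ihs =>
    cases d <;> simp [mrr, dcl, AEB.blk, ihc, ihs]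

theorem blk_mrr (c : Fd) : AEB.blk (mrr c) = dcl c := by
  rw [← dcl_mrr (mrr c), mrr_mrr]

theorem in_mrr {V : Type} {R : V → V → Prop} {c : Fd} {N : V → Prop} {X : Finset V} (h : In (rev R) c N X) :
    In R (mrr c) N X := by
  obtain ⟨x, hx, A, hA, hxA, hN, hE⟩ := h
  exact ⟨x, hx, A, hA, hxA, hN, emb_mrr hE⟩

theorem coarse_mr {κ ε β C : ℝ} {c : Fd} (h : Coarse κ ε β C c) : Coarse κ ε β C (mrr c) := by
  intro V R hT X N hX hN
  refine in_mrr (h (tour_rev hT) X N (by rw [mrr_size] at hX; exact hX) (hN.trans (Nat.cast_le.2 (card_le_card ?_))))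
  intro v hv
  unfold Adm at hv ⊢
  rw [mem_filter, dcl_mrr, blk_mrr] at hv
  rw [mem_filter]
  exact ⟨hv.1, hv.2.1, hv.2.2.2, hv.2.2.1⟩

theorem rootS_of_mr {C : ℕ} {c : Fd} (h : RootS C (mrr c)) : RootS C c := by
  intro V R hT X hX
  have h1 := in_mrr (R := R) (h (R := rev R) (tour_rev hT) X (by rw [mrr_size]; exact hX))
  rw [mrr_mrr] at h1
  exact h1

/-! ### The induction -/

/-- the tree side: a tree with a turn admits a jump, or a start, or its mirror image admits a start -/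
def TreeSide (b : ℕ) (θ : ℝ) (J : ℕ) : Prop := ∀ c : Fd, Tr b c → Trn θ c →
  (∃ q, JumpD θ J c q) ∨ (∃ s z, StartD θ J c s z) ∨ ∃ s z, StartD θ J (mrr c) s z

/-- **The skeleton.** -/
theorem skeleton {b : ℕ} {θ : ℝ} {J : ℕ} {κ ε β : ℝ} {C : ℕ} {NoS : Fd → Prop} (hside : TreeSide b θ J)
    (hjump : ∀ c q, Tr b c → JumpD θ J c q → Coarse κ ε β C q.2 → Coarse κ ε β C c)
    (hstart : ∀ c s z, Tr b c → Trn θ c → StartD θ J c s z → NoS z.2 → Coarse κ ε β C c)
    (hphase : ∀ c, Tr b c → OFine (sc θ 1 (c.size + 1)) c → (∀ c', c'.size < c.size → Tr b c' → Trn θ c' →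
      Coarse κ ε β C c') → NoS c)
    (hfine : ∀ c s z, Tr b c → StartD θ J c s z → OFine (sc θ 1 (z.2.size + 1)) z.2) :
    (∀ c, Tr b c → Trn θ c → Coarse κ ε β C c) ∧ ∀ c, Tr b c → OFine (sc θ 1 (c.size + 1)) c → NoS c := by
  have key : ∀ n : ℕ, (∀ c, c.size ≤ n → Tr b c → Trn θ c → Coarse κ ε β C c) ∧
      ∀ c, c.size ≤ n → Tr b c → OFine (sc θ 1 (c.size + 1)) c → NoS c := by
    intro n
    induction n using Nat.strong_induction_on with
    | _ n ih =>
      have hN : ∀ c, c.size ≤ n → Tr b c → OFine (sc θ 1 (c.size + 1)) c → NoS c := by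
        intro c hc hT hF
        exact hphase c hT hF (fun c' h1 h2 h3 => (ih c'.size (by omega)).1 c' le_rfl h2 h3)
      refine ⟨?_, hN⟩
      intro c hc hT hTr
      have hst : ∀ c s z, c.size ≤ n → Tr b c → Trn θ c → StartD θ J c s z → Coarse κ ε β C c := by
        intro c s z hc hT hTr hS
        refine @hstart c s z hT hTr hS ?_
        obtain ⟨d, j, τ, h1, h2, h3, h4, h5, h6, h7, h8, h9, h10⟩ := id hS
        have h11 : z.2.size < s.2.size := tr_sz h7
        have h12 : s.2.size < c.size := by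
          unfold sz at h5
          omega
        exact (ih z.2.size (by omega)).2 z.2 le_rfl (tr_mem (tr_ptT hT h4) h7) (hfine c s z hT hS)
      rcases hside c hT hTr with ⟨q, hq⟩ | ⟨s, z, hS⟩ | ⟨s, z, hS⟩
      · refine @hjump c q hT hq ?_
        obtain ⟨d, m, h1, h2, h3, h4, h5⟩ := hq
        have h6 := h1.ne (by omega)
        have h7 : q.2.size < c.size := by
          unfold sz at h6
          simp only at h6
          omega
        obtain ⟨h8, -⟩ := ih q.2.size (by omega)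
        exact @h8 q.2 le_rfl (tr_ptT hT h1) h5
      · exact @hst c s z hc hT hTr hS
      · have h1 : Coarse κ ε β C (mrr (mrr c)) :=
          @coarse_mr κ ε β C (mrr c) (@hst (mrr c) s z (by rw [mrr_size]; exact hc) (tr_mrr hT) (trn_mr hTr) hS)
        rw [mrr_mrr] at h1
        exact @h1
  exact ⟨fun c => (key c.size).1 c le_rfl, fun c => (key c.size).2 c le_rfl⟩

/-- a tree whose branches have no turn of the scale 4 is fine, in one of the two directions -/
def RootSide (b : ℕ) (θ : ℝ) : Prop := ∀ c : Fd, Tr b c → ¬ Trn θ c → OFine (sc θ 1 (c.size + 1)) c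

/-- **From the skeleton to the root statement.** -/
theorem root_all {b : ℕ} {θ : ℝ} {J : ℕ} {κ ε β : ℝ} {C C' : ℕ} {NoS : Fd → Prop} (hside : TreeSide b θ J)
    (hjump : ∀ c q, Tr b c → JumpD θ J c q → Coarse κ ε β C q.2 → Coarse κ ε β C c)
    (hstart : ∀ c s z, Tr b c → Trn θ c → StartD θ J c s z → NoS z.2 → Coarse κ ε β C c)
    (hphase : ∀ c, Tr b c → OFine (sc θ 1 (c.size + 1)) c → (∀ c', c'.size < c.size → Tr b c' → Trn θ c' →
      Coarse κ ε β C c') → NoS c)
    (hfine : ∀ c s z, Tr b c → StartD θ J c s z → OFine (sc θ 1 (z.2.size + 1)) z.2) (hroot : RootSide b θ)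
    (hrootC : ∀ c, Tr b c → Trn θ c → Coarse κ ε β C c → RootS C' c)
    (hrootN : ∀ c, Tr b c → OFine (sc θ 1 (c.size + 1)) c → NoS c → RootS C' c) : ∀ c, Tr b c → RootS C' c := by
  obtain ⟨h1, h2⟩ := skeleton hside hjump hstart hphase hfine
  intro c hT
  by_cases h : Trn θ c
  · exact hrootC c hT h (h1 c hT h)
  · exact hrootN c hT (hroot c hT h) (h2 c hT (hroot c hT h))

/-- **From the root statement to the statement of the problem.** -/
theorem final_of_root (Cf : ℕ → ℕ) (h : ∀ Δ : ℕ, ∀ c, Tr (Δ + 1) c → RootS (Cf Δ) c) :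
    ∃ g : ℕ → ℕ, ∀ Δ k : ℕ,
      ∀ R : Fin (k + g Δ) → Fin (k + g Δ) → Prop,
        (∀ a, ¬ R a a) →
        (∀ a b, a ≠ b → R a b ∨ R b a) →
        (∀ a b, R a b → ¬ R b a) →
        ∀ E : Fin (k + 1) → Fin (k + 1) → Prop,
          (∀ a b, E a b → ¬ E b a) →
          (SimpleGraph.fromRel E).IsTree →
          (∀ v, ((SimpleGraph.fromRel E).neighborSet v).ncard ≤ Δ) →
          ∃ f : Fin (k + 1) → Fin (k + g Δ),
            Function.Injective f ∧ ∀ a b, E a b → R (f a) (f b) := by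
  refine ⟨fun Δ => Cf Δ + 1, ?_⟩
  intro Δ k R h1 h2 h3 E h4 h5 h6
  have h6' : ∀ v, {w | E v w ∨ E w v}.ncard ≤ Δ + 1 := by
    intro v
    refine le_trans (le_of_eq ?_) ((h6 v).trans (Nat.le_succ Δ))
    congr 1
    ext w
    simp only [Set.mem_ofPred_eq, SimpleGraph.mem_neighborSet, SimpleGraph.fromRel_adj]
    constructor
    · intro h
      refine ⟨?_, h⟩
      rintro rfl
      rcases h with h | h <;> exact h4 _ _ h h
    · exact fun h => h.2
  obtain ⟨c, c1, ⟨c2, c3, -⟩, c4⟩ := AEB.glueB (l := k + 1) h4 h5 h6' 0 (fun f hf =>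
    AEX.no_long_run (fun x => (SimpleGraph.fromRel E).dist 0 x) f (fun i hi => (hf i hi).2))
  obtain ⟨f, f1, -, -, f4⟩ := c4 (R := R) (N := fun _ => True) (X := univ) (h Δ c ⟨c2, c3⟩ ⟨h1, h2, h3⟩ univ (by
    rw [card_univ, Fintype.card_fin, c1]
    show k + 1 + Cf Δ ≤ k + (Cf Δ + 1)
    omega))
  exact ⟨f, f1, f4⟩

end AESKEL
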